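import Pool.Agent.Run7.h805.IP.Sch
import Pool.Agent.Run7.h805.IP.Ar

/-!
# MP_14ad9d_nt, Q1 for all quadratic fields and all CM fields of degree 4

Author: helper805.
-/

set_option autoImplicit false

open AlgebraicGeometry CategoryTheory NumberField

namespace Pool.Agent.Results.MP_14ad9d_nt.QuadraticAndQuarticCM

/-- Q1 has a positive answer for every quadratic field, real or imaginary, and for every CM field
of degree `4`. -/
theorem result (K : Type) [Field K] [NumberField K]
    (hK : Module.finrank ℚ K = 2 ∨ (IsCMField K ∧ Module.finrank ℚ K = 4)) :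
    ∃ (X : Scheme.{0}) (f : X ⟶ Spec (CommRingCat.of ℤ)),
      LocallyOfFiniteType f ∧ QuasiCompact f ∧
      Infinite (Spec (CommRingCat.of ℤ) ⟶ X) ∧
      Function.Bijective (fun g : Spec (CommRingCat.of ℤ) ⟶ X =>
        Spec.map (CommRingCat.ofHom (algebraMap ℤ (𝓞 K))) ≫ g) := by
  obtain ⟨d, hd, hs, h⟩ := Run7.h805.IP.good_main K hK
  refine Run7.h805.IP.scheme_of K
    (9 * MvPolynomial.X 0 ^ 2 + 6 * MvPolynomial.X 0 - MvPolynomial.C d * MvPolynomial.X 1 ^ 2)
    ?_ ?_
  · apply Set.Infinite.of_image (fun v => v 0)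
    intro hfin
    obtain ⟨B, hB⟩ := hfin.bddAbove
    obtain ⟨z, y, h1, h2⟩ := Run7.h805.IP.pell_unbounded d hd hs B.toNat
    have h3 : z ≤ B := by
      apply hB
      refine ⟨![z, y], ?_, by simp⟩
      simp only [Set.mem_setOf_eq, map_sub, map_add, map_mul, map_pow, map_ofNat,
        MvPolynomial.aeval_X, MvPolynomial.aeval_C, Matrix.cons_val_zero, Matrix.cons_val_one]
      simpa using h1
    have := Int.self_le_toNat B
    omega
  · intro v hv
    simp only [map_sub, map_add, map_mul, map_pow, map_ofNat, MvPolynomial.aeval_X,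
      MvPolynomial.aeval_C] at hv
    obtain ⟨⟨a, ha⟩, b, hb⟩ := h (v 0) (v 1) (by simpa using hv)
    intro i
    fin_cases i
    · exact ⟨a, by simpa using ha⟩
    · exact ⟨b, by simpa using hb⟩

end Pool.Agent.Results.MP_14ad9d_nt.QuadraticAndQuarticCM
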